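import Pool.Agent.Q233.PI.Sym
import Pool.Agent.Q233.PI.KL

/-!
# A permutation-invariant code on 59 qubits correcting 4 errors

The conjectured minimal block length of a permutation-invariant qubit code correcting `t` errors is
`3 t ^ 2 + 3 t + 1`, which is 61 for `t = 4`.  We prove that there is such a code on 59 qubits.  The
second codeword is the time reversal (Kramers partner) of the first one, so that all error operators
of even rank are automatically harmless, and the first codeword is supported on the Dicke states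
whose number of excitations is a multiple of three; the remaining 36 real quadratic equations are
solved by a Newton-Kantorovich argument with integer data.
-/

namespace Pool.Agent.Results.MP_901209_mp.FiftyNineQubits

open Pool.Agent.Q233.PI Matrix Finset

/-- the Dicke state of `n` qubits with `j` ones -/
noncomputable def dicke (n j : ℕ) : (Fin n → Fin 2) → ℂ :=
  fun x => if wt x = j then ((Real.sqrt (n.choose j : ℝ))⁻¹ : ℝ) else 0

/-- the vector with coefficients `α` in the Dicke basis -/
noncomputable def codeword (n : ℕ) (α : Fin (n + 1) → ℂ) : (Fin n → Fin 2) → ℂ :=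
  ∑ j : Fin (n + 1), α j • dicke n j

/-- `c 0`, `c 1` are orthonormal and satisfy the Knill-Laflamme conditions for all pairs of Pauli
strings of weight at most `t` -/
def Corrects (n t : ℕ) (c : Fin 2 → (Fin n → Fin 2) → ℂ) : Prop :=
  (∀ i k : Fin 2, star (c i) ⬝ᵥ c k = if i = k then 1 else 0) ∧
  ∀ E F : Fin n → Fin 4, weight E ≤ t → weight F ≤ t →
    ∃ l : ℂ, ∀ i k : Fin 2,
      star (c i) ⬝ᵥ ((pauliString E)ᴴ * pauliString F).mulVec (c k) = if i = k then l else 0

/-- some qubit permutation-invariant code of block length `n` corrects `t` errors -/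
def HasPICode (n t : ℕ) : Prop :=
  ∃ α : Fin 2 → Fin (n + 1) → ℂ, Corrects n t fun i => codeword n (α i)

lemma codeword_apply (n : ℕ) (a : ℕ → ℂ) (x : Fin n → Fin 2) :
    codeword n (fun j => a j * (Real.sqrt (n.choose j : ℝ) : ℝ)) x = a (wt x) := by
  have hw : wt x < n + 1 := by
    have := wt_le x
    rw [Fintype.card_fin] at this
    omega
  unfold codeword
  rw [Finset.sum_apply, Finset.sum_eq_single ⟨wt x, hw⟩]
  · simp only [Pi.smul_apply, dicke, if_true, smul_eq_mul]
    have h1 : Real.sqrt (n.choose (wt x) : ℝ) ≠ 0 := by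
      have : (0 : ℝ) < n.choose (wt x) := by
        exact_mod_cast Nat.choose_pos (Nat.lt_succ_iff.1 hw)
      exact (Real.sqrt_pos.2 this).ne'
    rw [mul_assoc, ← Complex.ofReal_mul, mul_inv_cancel₀ h1, Complex.ofReal_one, mul_one]
  · intro j _ hj
    have : wt x ≠ j := fun h => hj (Fin.ext h.symm)
    simp [dicke, this]
  · intro h
    exact absurd (Finset.mem_univ _) h

lemma pauliString_zero (n : ℕ) : pauliString (fun _ : Fin n => (0 : Fin 4)) = 1 := by
  ext x y
  unfold pauliString
  simp only [pauli, Matrix.cons_val_zero, Matrix.one_apply]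
  rw [Finset.prod_ite_zero]
  simp [funext_iff]

lemma sum_pos_of {n : ℕ} (f : (Fin n → Fin 2) → ℝ) (h0 : ∀ z, 0 ≤ f z) (z : Fin n → Fin 2)
    (hz : 0 < f z) : 0 < ∑ z, f z :=
  Finset.sum_pos' (fun z _ => h0 z) ⟨z, Finset.mem_univ z, hz⟩

theorem exists_code : HasPICode 59 4 := by
  obtain ⟨x, hx0, hx⟩ := exists_sol
  -- the norm
  set N : ℝ := ∑ z : Fin 59 → Fin 2, ‖amp x (wt z)‖ ^ 2 with hN
  have hNpos : 0 < N := by
    obtain ⟨i, hi⟩ := Function.ne_iff.1 hx0
    have hi' : x i ≠ 0 := hi
    have h1 : amp x (3 * i) ≠ 0 := by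
      rw [amp_three]
      exact div_ne_zero hi' (pow_ne_zero _ two_ne_zero)
    obtain ⟨z, hz⟩ : ∃ z : Fin 59 → Fin 2, wt z = 3 * (i : ℕ) := by
      refine ⟨fun k => if (k : ℕ) < 3 * i then 1 else 0, ?_⟩
      unfold wt
      have h2 : ∀ k : Fin 59, (((if (k : ℕ) < 3 * i then 1 else 0 : Fin 2)) : ℕ)
          = if (k : ℕ) < 3 * i then 1 else 0 := by
        intro k
        split_ifs <;> rfl
      simp only [h2]
      rw [Fin.sum_univ_eq_sum_range (fun k => if k < 3 * (i : ℕ) then 1 else 0) 59,
        ← Finset.card_filter]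
      have h3 : (Finset.range 59).filter (fun k => k < 3 * (i : ℕ)) = Finset.range (3 * i) := by
        ext k
        simp only [Finset.mem_filter, Finset.mem_range]
        have := i.2
        omega
      rw [h3, Finset.card_range]
    refine sum_pos_of (fun z => ‖amp x (wt z)‖ ^ 2) (fun z => sq_nonneg _) z ?_
    rw [hz]
    exact pow_pos (norm_pos_iff.2 h1) 2
  set r : ℝ := (Real.sqrt N)⁻¹ with hr
  have hrN : r * r * N = 1 := by
    rw [hr, ← mul_inv, Real.mul_self_sqrt hNpos.le, inv_mul_cancel₀ hNpos.ne']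
  set a : Fin 2 → ℕ → ℂ := fun i j => (r : ℂ) * (![amp x, amp' x] i) j with ha
  have hred : ∀ (f g : ℕ → ℂ) (p q : ℕ),
      ∑ k ∈ range (59 - 2 * 4 + 1), ((59 - 2 * 4).choose k : ℂ) *
        ((starRingEnd ℂ) ((r : ℂ) * f (k + p)) * ((r : ℂ) * g (k + q))) = (r * r : ℂ) * S f g p q := by
    intro f g p q
    unfold S
    rw [Finset.mul_sum]
    refine Finset.sum_congr rfl fun k _ => ?_
    rw [map_mul, Complex.conj_ofReal]
    ring
  have hKL := KL_of (n := 59) (t := 4) (by norm_num) a (by
    intro p hp q hq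
    refine ⟨?_, ?_⟩
    · have h1 := hred (amp x) (amp' x) p q
      simp only [ha, Matrix.cons_val_zero, Matrix.cons_val_one]
      rw [h1, S_amp_amp', T_all hx (by omega) (by omega), map_zero, mul_zero]
    · have h1 := hred (amp x) (amp x) p q
      have h2 := hred (amp' x) (amp' x) p q
      simp only [ha, Matrix.cons_val_zero, Matrix.cons_val_one]
      rw [h1, h2, S_amp' (by omega) (by omega)]
      have h3 := R_all hx (p := p) (q := q) (by omega) (by omega)
      unfold R at h3
      rw [h3])
  refine ⟨fun i j => a i j * (Real.sqrt ((59 : ℕ).choose j : ℝ) : ℝ), ?_⟩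
  have hc : ∀ i : Fin 2, codeword 59 (fun j => a i j * (Real.sqrt ((59 : ℕ).choose j : ℝ) : ℝ))
      = fun z => a i (wt z) := fun i => funext fun z => codeword_apply 59 (a i) z
  simp only [hc]
  refine ⟨?_, fun E F hE hF => hKL E F hE hF⟩
  obtain ⟨l, hl⟩ := hKL (fun _ => 0) (fun _ => 0) (by simp [weight]) (by simp [weight])
  rw [pauliString_zero, Matrix.conjTranspose_one, Matrix.one_mul] at hl
  simp only [Matrix.one_mulVec] at hl
  have h00 : (star fun z : Fin 59 → Fin 2 => a 0 (wt z)) ⬝ᵥ (fun z => a 0 (wt z)) = 1 := by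
    have h1 : (star fun z : Fin 59 → Fin 2 => a 0 (wt z)) ⬝ᵥ (fun z => a 0 (wt z))
        = ((r * r * N : ℝ) : ℂ) := by
      simp only [dotProduct, Pi.star_apply, ha, Matrix.cons_val_zero, hN]
      rw [Finset.mul_sum, Complex.ofReal_sum]
      refine Finset.sum_congr rfl fun z _ => ?_
      rw [star_mul', RCLike.star_def, Complex.conj_ofReal]
      have h2 := Complex.conj_mul' (amp x (wt z))
      push_cast
      rw [← h2]
      ring
    rw [h1, hrN, Complex.ofReal_one]
  have hl1 : l = 1 := by
    have := hl 0 0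
    rw [if_pos rfl] at this
    exact this.symm.trans h00
  intro i k
  rw [hl i k, hl1]

/-- There is a permutation-invariant qubit code of block length 59 correcting 4 errors; hence it is
not true that for every `t ≥ 1` the least block length is `3 t ^ 2 + 3 t + 1`. -/
theorem result : HasPICode 59 4 ∧
    ¬ ∀ t : ℕ, 1 ≤ t → IsLeast {n : ℕ | HasPICode n t} (3 * t ^ 2 + 3 * t + 1) := by
  refine ⟨exists_code, fun h => ?_⟩
  have h1 := (h 4 (by norm_num)).2 (show 59 ∈ {n : ℕ | HasPICode n 4} from exists_code)
  norm_num at h1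

end Pool.Agent.Results.MP_901209_mp.FiftyNineQubits
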